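import Pool.Agent.H18.EngW

set_option autoImplicit false

namespace Pool.Agent.Results.MP_9682d1_al.Exists37

open Pool.Agent.H18.EngW

lemma sup_pow (a : R) (ha : a * a = 0) (J : Ideal R) (k : ℕ) :
    (Ideal.span {a} ⊔ J) ^ (k + 1) ≤ Ideal.span {a} * J ^ k ⊔ J ^ (k + 1) := by
  have h0 : Ideal.span {a} * Ideal.span {a} = (⊥ : Ideal R) := by
    rw [Ideal.span_singleton_mul_span_singleton, ha]; simp
  induction k with
  | zero => simp
  | succ k ih =>
    rw [pow_succ]
    refine (Ideal.mul_mono_left ih).trans ?_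
    rw [Ideal.sup_mul, Ideal.mul_sup, Ideal.mul_sup]
    refine sup_le (sup_le ?_ ?_) (sup_le ?_ ?_)
    · rw [mul_right_comm, h0]; simp
    · rw [mul_assoc, ← pow_succ]; exact le_sup_left
    · rw [mul_comm]; exact le_sup_left
    · rw [← pow_succ]; exact le_sup_right

lemma span_pow' (s : Finset R) (hs : ∀ r ∈ s, r ∈ I) :
    (Ideal.span (s : Set R)) ^ (s.card + 1) = ⊥ := by
  classical
  induction s using Finset.induction_on with
  | empty => simp
  | insert a s ha ih =>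
    rw [Finset.coe_insert, Ideal.span_insert, Finset.card_insert_of_notMem ha, eq_bot_iff]
    refine (sup_pow a (sq_I a (hs a (by simp))) _ _).trans ?_
    have h := ih (fun r hr => hs r (by simp [hr]))
    rw [pow_succ _ (s.card + 1), h]
    simp

lemma pow_bot (s : Finset R) (hs : ∀ r ∈ s, r ∈ I) (N : ℕ) (hc : s.card ≤ N) :
    (Ideal.span (s : Set R)) ^ (N + 1) = ⊥ := by
  have h1 := span_pow' s hs
  have h2 : (Ideal.span (s : Set R)) ^ (N + 1) ≤ (Ideal.span (s : Set R)) ^ (s.card + 1) :=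
    Ideal.pow_le_pow_right (by omega)
  rw [h1] at h2
  exact eq_bot_iff.2 h2

lemma engelS (s : Finset R) (hs : ∀ r ∈ s, r ∈ I) (N : ℕ) (hc : s.card ≤ N) (y : W M)
    (hy : ∀ r ∈ ents y, r ∈ s) (l : List (W M)) (hl : l.length = 2 * N + 1) (hm : ∀ b ∈ l, b = y) :
    l.foldl (fun a b : W M => a⁻¹ * b⁻¹ * a * b) ⟨1, 1, true⟩ = 1 := by
  have h0 : (⟨1, 1, true⟩ : W M) ∈ V (Δ (Ideal.span (s : Set R))) :=
    ⟨Subgroup.one_mem _, Subgroup.one_mem _⟩
  have h1 : y ∈ V (Δ (Ideal.span (s : Set R))) :=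
    mem_V _ y fun r hr => Ideal.subset_span (hy r hr)
  exact nil_J _ N (pow_bot s hs N hc) _ h0 l hl fun b hb => (hm b hb).symm ▸ h1

lemma iter_eq (y : W M) (n : ℕ) : ∀ g : W M, (fun z : W M => z⁻¹ * y⁻¹ * z * y)^[n] g =
    (List.replicate n y).foldl (fun a b : W M => a⁻¹ * b⁻¹ * a * b) g := by
  induction n with
  | zero => intro g; rfl
  | succ n ih => intro g; rw [Function.iterate_succ_apply, ih, List.replicate_succ]; rfl

lemma engel37 (y : W M) : (fun z : W M => z⁻¹ * y⁻¹ * z * y)^[37] ⟨1, 1, true⟩ = 1 := by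
  rw [iter_eq]
  exact engelS (ents y) (ents_I y) 18 (ents_card y) y (fun _ h => h) _ (by simp)
    fun b hb => List.eq_of_mem_replicate hb

lemma has_of (K : Subgroup (W M)) (hK : K.IsSubnormal) (y : W M) (hs : y.s = true) (hy : y ∈ K) :
    ∃ m, Has m K := by
  induction hK with
  | top => exact ⟨0, Has_top⟩
  | step H L hle _ hN ih =>
    obtain ⟨m, hm⟩ := ih (hle hy)
    refine ⟨m + 1, Has_down m H L (fun a ha b hb => ?_) y hy hs hm⟩
    exact hN.conj_mem ⟨b, hle hb⟩ hb ⟨a, ha⟩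

theorem result : ∃ (G : Type) (_ : Group G) (a : G),
    (∀ x : G, (fun y : G => y⁻¹ * x⁻¹ * y * x)^[37] a = 1) ∧
    a ∉ Subgroup.closure {y : G | (Subgroup.zpowers y).IsSubnormal} := by
  refine ⟨W M, inferInstance, ⟨1, 1, true⟩, engel37, fun h => ?_⟩
  have h3 := (Subgroup.closure_le (U ⊤)).2 ?_ h
  · exact absurd h3.1 (by decide)
  · intro y hy
    refine ⟨?_, Subgroup.mem_top _, Subgroup.mem_top _⟩
    by_contra hs
    obtain ⟨m, hm⟩ := has_of _ hy y (by simpa using hs) (Subgroup.mem_zpowers y)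
    exact not_Has m y hm

end Pool.Agent.Results.MP_9682d1_al.Exists37
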